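import Pool.Agent.helper47.SC.Spec

/-!
# Row PCI: a plurisubharmonic function is `-∞` only on a null set of a circle

Proof of `PCI_stmt` of `Pool.Agent.helper47.SC.Spec`.
-/

open scoped Topology ContDiff
open Set Filter Metric MeasureTheory

namespace Pool.Agent.SC

/-- A null-or-positive alternative on the circle: if the set `N` of the angles at which a function
`h` of the circle is `⊥` contains a compact set of positive measure, then continuous majorants of `h`
have arbitrarily small mean. -/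
theorem PCI_aux (h : ℂ → EReal) (hu : UpperSemicontinuousOn h (sphere 0 1)) (C : ℝ)
    (hC : ∀ ζ ∈ sphere (0 : ℂ) 1, h ζ ≤ (C : EReal)) (K : Set ℝ) (hK : IsCompact K)
    (hK2 : K ⊆ Ioo 0 (2 * Real.pi)) (hbot : ∀ θ ∈ K, h (circleMap 0 1 θ) = ⊥) (n : ℝ)
    (hn : 0 ≤ C + n) :
    ∃ φ : ℂ → ℝ, ContinuousOn φ (sphere 0 1) ∧ (∀ ζ ∈ sphere (0 : ℂ) 1, h ζ ≤ (φ ζ : EReal)) ∧
      Real.circleAverage φ 0 1 ≤ C - (C + n) * (volume.real K / (2 * Real.pi)) := by
  have hsph : ∀ θ : ℝ, circleMap 0 1 θ ∈ sphere (0 : ℂ) 1 := fun θ =>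
    circleMap_mem_sphere 0 (by norm_num) θ
  -- the closed set where `h` is at least `-n`
  set F : Set ℂ := {ζ | ζ ∈ sphere (0 : ℂ) 1 ∧ ((-n : ℝ) : EReal) ≤ h ζ} with hF
  have hFc : IsClosed F := by
    have := (upperSemicontinuousOn_iff_preimage_Ici.mp hu ((-n : ℝ) : EReal))
    obtain ⟨v, hv, hv2⟩ := this
    have : F = sphere (0 : ℂ) 1 ∩ v := by
      rw [← hv2]
      ext ζ
      simp [hF]
    rw [this]
    exact isClosed_sphere.inter hv
  have hKc : IsCompact (circleMap 0 1 '' K) := hK.image (continuous_circleMap 0 1)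
  have hdis : Disjoint (circleMap 0 1 '' K) F := by
    rw [Set.disjoint_left]
    rintro ζ ⟨θ, hθ, rfl⟩ ⟨_, h2⟩
    rw [hbot θ hθ] at h2
    exact absurd h2 (by simp)
  obtain ⟨f, hf0, hf1, hf01⟩ := exists_continuous_zero_one_of_isClosed hKc.isClosed hFc hdis
  refine ⟨fun ζ => -n + (C + n) * f ζ, by fun_prop, fun ζ hζ => ?_, ?_⟩
  · by_cases hz : ζ ∈ F
    · have h1 : f ζ = 1 := hf1 hz
      have : (-n + (C + n) * f ζ) = C := by rw [h1]; ring
      simp only [this]
      exact hC ζ hζ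
    · have h2 : h ζ < ((-n : ℝ) : EReal) := by
        by_contra h3
        exact hz ⟨hζ, not_lt.mp h3⟩
      refine h2.le.trans ?_
      have : 0 ≤ f ζ := (hf01 ζ).1
      exact_mod_cast (by nlinarith [mul_nonneg hn this] : -n ≤ -n + (C + n) * f ζ)
  · have hpi : 0 < 2 * Real.pi := by positivity
    have hKm : MeasurableSet K := hK.measurableSet
    have hKf : volume K ≠ ⊤ := hK.measure_lt_top.ne
    have hint : IntervalIntegrable (K.indicator (fun _ => (1 : ℝ))) volume 0 (2 * Real.pi) := by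
      have : Integrable (K.indicator (fun _ => (1 : ℝ))) volume :=
        (integrable_indicator_iff hKm).mpr (integrableOn_const hKf)
      exact this.intervalIntegrable
    have hI : ∫ θ in (0 : ℝ)..(2 * Real.pi), K.indicator (fun _ => (1 : ℝ)) θ = volume.real K := by
      have hKI : K ⊆ Ioc 0 (2 * Real.pi) := fun x hx => ⟨(hK2 hx).1, (hK2 hx).2.le⟩
      rw [intervalIntegral.integral_of_le hpi.le, setIntegral_indicator hKm,
        inter_eq_self_of_subset_right hKI]
      simp
    have hle : ∫ θ in (0 : ℝ)..(2 * Real.pi), (-n + (C + n) * f (circleMap 0 1 θ)) ≤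
        ∫ θ in (0 : ℝ)..(2 * Real.pi), (C - (C + n) * K.indicator (fun _ => (1 : ℝ)) θ) := by
      apply intervalIntegral.integral_mono_on hpi.le
      · apply Continuous.intervalIntegrable
        fun_prop
      · exact (intervalIntegrable_const).sub (hint.const_mul _)
      · intro θ _
        by_cases hθ : θ ∈ K
        · have h0 : f (circleMap 0 1 θ) = 0 := hf0 (mem_image_of_mem _ hθ)
          rw [h0, indicator_of_mem hθ]
          linarith
        · rw [indicator_of_notMem hθ]
          have : f (circleMap 0 1 θ) ≤ 1 := (hf01 _).2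
          nlinarith
    have hR : ∫ θ in (0 : ℝ)..(2 * Real.pi), (C - (C + n) * K.indicator (fun _ => (1 : ℝ)) θ) =
        2 * Real.pi * C - (C + n) * volume.real K := by
      rw [intervalIntegral.integral_sub intervalIntegrable_const (hint.const_mul _),
        intervalIntegral.integral_const, intervalIntegral.integral_const_mul, hI]
      simp
    rw [Real.circleAverage_def]
    rw [hR] at hle
    calc (2 * Real.pi)⁻¹ • ∫ θ in (0 : ℝ)..(2 * Real.pi), (-n + (C + n) * f (circleMap 0 1 θ))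
        ≤ (2 * Real.pi)⁻¹ * (2 * Real.pi * C - (C + n) * volume.real K) := by
          rw [smul_eq_mul]
          exact mul_le_mul_of_nonneg_left hle (by positivity)
      _ = C - (C + n) * (volume.real K / (2 * Real.pi)) := by
          field_simp

theorem PCI : PCI_stmt := by
  intro V u hV hu z v hdisc hz
  obtain ⟨hu1, hu2, hu3⟩ := hu
  -- the function on the circle
  set h : ℂ → EReal := fun ζ => u (z + ζ • v) with hh
  have hexp : ∀ θ : ℝ, circleMap 0 1 θ = Complex.exp (θ * Complex.I) := fun θ => by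
    simp [circleMap]
  have hsph : ∀ θ : ℝ, circleMap 0 1 θ ∈ sphere (0 : ℂ) 1 := fun θ =>
    circleMap_mem_sphere 0 (by norm_num) θ
  have hmap : MapsTo (fun ζ : ℂ => z + ζ • v) (sphere (0 : ℂ) 1) V := by
    intro ζ hζ
    exact hdisc ζ (by simpa using (mem_sphere_zero_iff_norm.mp hζ).le)
  have husc : UpperSemicontinuousOn h (sphere 0 1) := by
    have hc : ContinuousOn (fun ζ : ℂ => z + ζ • v) (sphere (0 : ℂ) 1) := by fun_prop
    exact hu2.comp hc hmap
  -- a bound
  obtain ⟨ζ₀, hζ₀, hmax⟩ : ∃ ζ₀ ∈ sphere (0 : ℂ) 1, IsMaxOn h (sphere (0 : ℂ) 1) ζ₀ :=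
    husc.exists_isMaxOn ⟨1, by simp⟩ (isCompact_sphere 0 1)
  obtain ⟨C, hC⟩ : ∃ C : ℝ, h ζ₀ ≤ (C : EReal) := by
    have h1 : h ζ₀ < ⊤ := hu1 _ (hmap hζ₀)
    refine ⟨(h ζ₀).toReal, EReal.le_coe_toReal h1.ne⟩
  have hCall : ∀ ζ ∈ sphere (0 : ℂ) 1, h ζ ≤ (C : EReal) := fun ζ hζ => (hmax hζ).trans hC
  -- the bad set
  set N : Set ℝ := {θ : ℝ | θ ∈ Ioo 0 (2 * Real.pi) ∧
      u (z + Complex.exp (θ * Complex.I) • v) = ⊥} with hN
  have hg : UpperSemicontinuous (fun θ : ℝ => h (circleMap 0 1 θ)) := by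
    have := husc.comp ((continuous_circleMap 0 1).continuousOn (s := univ))
      (fun θ _ => hsph θ)
    exact upperSemicontinuousOn_univ_iff.mp this
  have hNm : MeasurableSet N := by
    have h1 : N = Ioo 0 (2 * Real.pi) ∩ (fun θ : ℝ => h (circleMap 0 1 θ)) ⁻¹' {⊥} := by
      ext θ
      simp [hN, hh, hexp]
    rw [h1]
    exact measurableSet_Ioo.inter (hg.measurable (measurableSet_singleton _))
  by_contra hne
  have hpos : 0 < volume N := pos_iff_ne_zero.mpr hne
  obtain ⟨K, hKN, hK, hKpos⟩ := hNm.exists_lt_isCompact hpos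
  have hKf : volume K ≠ ⊤ := hK.measure_lt_top.ne
  have hδ : 0 < volume.real K / (2 * Real.pi) := by
    have : 0 < volume.real K := ENNReal.toReal_pos hKpos.ne' hKf
    positivity
  set δ := volume.real K / (2 * Real.pi) with hδd
  have key : ∀ n : ℝ, 0 ≤ C + n → u z ≤ ((C - (C + n) * δ : ℝ) : EReal) := by
    intro n hn
    obtain ⟨φ, hφ1, hφ2, hφ3⟩ := PCI_aux h husc C hCall K hK (fun θ hθ => (hKN hθ).1)
      (fun θ hθ => by
        have := (hKN hθ).2
        rw [hexp]
        exact this) n hn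
    exact (hu3 z v hdisc φ hφ1 hφ2).trans (by exact_mod_cast hφ3)
  have hzV : z ∈ V := by simpa using hdisc 0 (by simp)
  have hzt : u z ≠ ⊤ := (hu1 z hzV).ne
  obtain ⟨a, ha⟩ : ∃ a : ℝ, u z = (a : EReal) := ⟨(u z).toReal, (EReal.coe_toReal hzt hz).symm⟩
  -- choose `C + n` larger than `(C - a) / δ`
  set m : ℝ := max 0 ((C - a) / δ + 1) with hm
  have h1 := key (m - C) (by rw [show C + (m - C) = m by ring]; exact le_max_left _ _)
  rw [ha, show C + (m - C) = m by ring] at h1
  have h2 : a ≤ C - m * δ := by exact_mod_cast h1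
  have h3 : (C - a) / δ + 1 ≤ m := le_max_right _ _
  have h4 : ((C - a) / δ + 1) * δ ≤ m * δ := mul_le_mul_of_nonneg_right h3 hδ.le
  have h5 : ((C - a) / δ + 1) * δ = C - a + δ := by field_simp
  linarith

end Pool.Agent.SC
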