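import Pool.Agent.helper82.SC.SpecB

/-!
# sp: Cardy part, module CPI: connecting sets between darts
-/

namespace Pool.Agent.helper82.SC

open Relation Filter Topology

theorem PI_adj (u v : V) (h : TAdj u v ∨ u = v) : ‖ps u - ps v‖ ≤ 1 := by
  have h3 : Real.sqrt 3 ^ 2 = 3 := Real.sq_sqrt (by norm_num)
  have h1 : Complex.normSq (ps u - ps v) ≤ 1 := by
    obtain ⟨i, j⟩ := u
    obtain ⟨k, l⟩ := v
    rw [Complex.normSq_apply]
    simp only [ps, Complex.sub_re, Complex.sub_im]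
    have e : ((i : ℝ) + j / 2 - (k + l / 2)) * ((i : ℝ) + j / 2 - (k + l / 2)) +
        (Real.sqrt 3 / 2 * j - Real.sqrt 3 / 2 * l) * (Real.sqrt 3 / 2 * j - Real.sqrt 3 / 2 * l) =
        ((i : ℝ) - k) ^ 2 + (i - k) * (j - l) + (j - l) ^ 2 := by
      linear_combination (1 / 4 * ((j : ℝ) - l) ^ 2) * h3
    rw [e]
    rcases h with h | h
    · simp only [TAdj, Prod.mk.injEq] at h
      rcases h with ⟨h, h'⟩ | ⟨h, h'⟩ | ⟨h, h'⟩ | ⟨h, h'⟩ | ⟨h, h'⟩ | ⟨h, h'⟩ <;>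
        · rw [h, h']
          push_cast
          nlinarith
    · rw [Prod.mk.injEq] at h
      rw [h.1, h.2]
      norm_num
  rw [Complex.normSq_eq_norm_sq] at h1
  nlinarith [norm_nonneg (ps u - ps v)]

theorem PI_face (f : F) (d e : Fin 3) : ‖ps (S f d) - ps (S f e)‖ ≤ 1 := by
  apply PI_adj
  by_cases h : d = e
  · right
    rw [h]
  · left
    exact TAdj_S f d e h

theorem PI_dart (x : Dart) (e : Fin 3) : ‖pd x - ps (S x.1 e)‖ ≤ 1 := by
  have h1 := PI_face x.1 x.2 e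
  have h2 := PI_face x.1 (x.2 + 1) e
  have h3 : pd x - ps (S x.1 e) = ((ps (S x.1 x.2) - ps (S x.1 e)) +
      (ps (S x.1 (x.2 + 1)) - ps (S x.1 e))) / 2 := by
    unfold pd
    ring
  rw [h3, norm_div]
  have h4 := norm_add_le (ps (S x.1 x.2) - ps (S x.1 e)) (ps (S x.1 (x.2 + 1)) - ps (S x.1 e))
  have h5 : ‖(2 : ℂ)‖ = 2 := by norm_num
  rw [h5]
  linarith

theorem PI (hPT : PT_stmt) : PI_stmt := by
  intro n D hn hD x y hx hy
  obtain ⟨hU, -, -⟩ := hD
  obtain ⟨d, hd⟩ := hx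
  obtain ⟨e, he⟩ := hy
  rw [hU] at hd he
  obtain ⟨π, hπ, hc, hu, hv, hw⟩ := hPT n hn _ hd _ he
  refine ⟨π, ?_, hc, ⟨⟨d, by rw [hU]; exact hd⟩, d, hu⟩, ⟨⟨e, by rw [hU]; exact he⟩, e, hv⟩, ?_⟩
  · rw [hU]
    exact hπ
  · rintro f ⟨-, k, hk⟩ l
    have h1 := hw _ hk
    have h2 := PI_face f l k
    have h3 := PI_dart x d
    have h4 := PI_dart y e
    have h5 : ‖ps (S x.1 d) - ps (S y.1 e)‖ ≤ ‖pd x - pd y‖ + 2 := by
      have e1 : ps (S x.1 d) - ps (S y.1 e) = -(pd x - ps (S x.1 d)) + (pd x - pd y) +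
          (pd y - ps (S y.1 e)) := by ring
      rw [e1]
      have h6 := norm_add_le (-(pd x - ps (S x.1 d)) + (pd x - pd y)) (pd y - ps (S y.1 e))
      have h7 := norm_add_le (-(pd x - ps (S x.1 d))) (pd x - pd y)
      rw [norm_neg] at h7
      linarith
    have e2 : ps (S f l) - pd x = (ps (S f l) - ps (S f k)) + (ps (S f k) - ps (S x.1 d)) +
        -(pd x - ps (S x.1 d)) := by ring
    rw [e2]
    have h8 := norm_add_le ((ps (S f l) - ps (S f k)) + (ps (S f k) - ps (S x.1 d)))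
      (-(pd x - ps (S x.1 d)))
    have h9 := norm_add_le (ps (S f l) - ps (S f k)) (ps (S f k) - ps (S x.1 d))
    rw [norm_neg] at h8
    have h10 := norm_nonneg (pd x - pd y)
    linarith

end Pool.Agent.helper82.SC
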