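import Pool.Agent.helper82.SC.SpecB

/-!
# sp: Cardy part, module CSQF: the faces of the square are connected
-/

namespace Pool.Agent.helper82.SC

open Relation Filter Topology

/-- turn around a site -/
def SQF_rot (x : Dart) : Dart := (tw x.1 x.2, x.2 + 1)

theorem SQF_rot_site (x : Dart) : S (SQF_rot x).1 (SQF_rot x).2 = S x.1 x.2 := S_tw' x.1 x.2

theorem SQF_rot_type (x : Dart) : (SQF_rot x).1.2 = !x.1.2 ∧ (SQF_rot x).2 = x.2 + 1 := by
  refine ⟨?_, rfl⟩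
  obtain ⟨⟨⟨i, j⟩, b⟩, d⟩ := x
  cases b <;> fin_cases d <;> simp [SQF_rot, tw]

theorem SQF_unique (f g : F) (e : Fin 3) (h : S f e = S g e) (hb : f.2 = g.2) : f = g := by
  obtain ⟨⟨i, j⟩, b⟩ := f
  obtain ⟨⟨k, l⟩, c⟩ := g
  simp only at hb
  subst hb
  cases b <;> fin_cases e <;> simp_all [S]

theorem SQF_iter (x : Dart) (k : ℕ) : S (SQF_rot^[k] x).1 (SQF_rot^[k] x).2 = S x.1 x.2 ∧
    ((SQF_rot^[k] x).1.2, (SQF_rot^[k] x).2) =
      (fun y : Bool × Fin 3 => (!y.1, y.2 + 1))^[k] (x.1.2, x.2) := by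
  induction k with
  | zero => exact ⟨rfl, rfl⟩
  | succ k ih =>
    rw [Function.iterate_succ_apply', Function.iterate_succ_apply', ← ih.2]
    refine ⟨(SQF_rot_site _).trans ih.1, ?_⟩
    rw [(SQF_rot_type _).1, (SQF_rot_type _).2]

theorem SQF_six : ∀ (y z : Bool × Fin 3), ∃ k : Fin 6,
    (fun y : Bool × Fin 3 => (!y.1, y.2 + 1))^[(k : ℕ)] y = z := by
  decide

theorem SQF_around (U : Set V) (x y : Dart) (h : S x.1 x.2 = S y.1 y.2) (hU : S x.1 x.2 ∈ U) :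
    ReflTransGen (fun f g => (∃ d, g = tw f d) ∧ ∃ d, S g d ∈ U) x.1 y.1 := by
  obtain ⟨k, hk⟩ := SQF_six (x.1.2, x.2) (y.1.2, y.2)
  obtain ⟨h1, h2⟩ := SQF_iter x k
  rw [hk] at h2
  have h3 := congrArg Prod.fst h2
  have h4 := congrArg Prod.snd h2
  simp only at h3 h4
  have h5 : (SQF_rot^[(k : ℕ)] x).1 = y.1 := by
    refine SQF_unique _ _ y.2 ?_ h3
    rw [← h4, h1, h, h4]
  rw [← h5]
  have h6 : ∀ m : ℕ, ReflTransGen (fun f g => (∃ d, g = tw f d) ∧ ∃ d, S g d ∈ U) x.1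
      (SQF_rot^[m] x).1 := by
    intro m
    induction m with
    | zero => exact ReflTransGen.refl
    | succ m ih =>
      refine ih.tail ?_
      rw [Function.iterate_succ_apply']
      refine ⟨⟨(SQF_rot^[m] x).2, rfl⟩, (SQF_rot (SQF_rot^[m] x)).2, ?_⟩
      rw [SQF_rot_site, (SQF_iter x m).1]
      exact hU
  exact h6 k

/-- faces of a connected set of sites are connected -/
theorem SQF_path (U π : Set V) (hπ : π ⊆ U) (f : F) (d : Fin 3) (hf : S f d ∈ U) (v : V)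
    (h : ReflTransGen (fun a b => TAdj a b ∧ b ∈ π) (S f d) v) : v ∈ U ∧ ∀ (g : F) (e : Fin 3),
    S g e = v → ReflTransGen (fun f g => (∃ d, g = tw f d) ∧ ∃ d, S g d ∈ U) f g := by
  induction h with
  | refl =>
    refine ⟨hf, ?_⟩
    intro g e he
    exact SQF_around U (f, d) (g, e) he.symm hf
  | tail _ hbc ih =>
    obtain ⟨hadj, hc⟩ := hbc
    refine ⟨hπ hc, ?_⟩
    intro g e he
    obtain ⟨x, hx1, hx2⟩ := hadj.exists_dart
    refine (ih.2 x.1 x.2 hx1).trans ?_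
    refine SQF_around U (x.1, x.2 + 1) (g, e) (hx2.trans he.symm) ?_
    rw [hx2]
    exact hπ hc

theorem SQF (hPT : PT_stmt) : SQF_stmt := by
  intro n hn f g hf hg
  obtain ⟨d, hd⟩ := hf
  obtain ⟨e, he⟩ := hg
  obtain ⟨π, hπ, hc, hu, hv, -⟩ := hPT n hn _ hd _ he
  exact (SQF_path (Usq n : Set V) π hπ f d hd _ (hc _ hu _ hv).2).2 g e rfl

end Pool.Agent.helper82.SC
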